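import Pool.Agent.W2helper66.XP.Stm

/-!
Project XP (helper66), piece LAYER.
-/

namespace Pool.Agent.W2helper51.XP

open Pool.Agent.W2helper66.XP

lemma dis {p : ℕ} {a a' b b' v w : ZMod p}
    (ha : w = v + a ∨ w = v - a ∨ w = v + a' ∨ w = v - a')
    (hb : w = v + b ∨ w = v - b ∨ w = v + b' ∨ w = v - b')
    (h1 : a ≠ b) (h2 : a ≠ -b) (h3 : a' ≠ b') (h4 : a' ≠ -b') (h5 : a ≠ b') (h6 : a ≠ -b')
    (h7 : b ≠ a') (h8 : b ≠ -a') : False := by
  rcases ha with rfl | rfl | rfl | rfl <;> rcases hb with h | h | h | h
  all_goals first
    | exact h1 (by linear_combination h)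
    | exact h1 (by linear_combination -h)
    | exact h2 (by linear_combination h)
    | exact h2 (by linear_combination -h)
    | exact h3 (by linear_combination h)
    | exact h3 (by linear_combination -h)
    | exact h4 (by linear_combination h)
    | exact h4 (by linear_combination -h)
    | exact h5 (by linear_combination h)
    | exact h5 (by linear_combination -h)
    | exact h6 (by linear_combination h)
    | exact h6 (by linear_combination -h)
    | exact h7 (by linear_combination h)
    | exact h7 (by linear_combination -h)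
    | exact h8 (by linear_combination h)
    | exact h8 (by linear_combination -h)

/-- the partner of a corner -/
def sig : Fin 4 → Fin 4 := ![1, 0, 3, 2]

lemma sig_sig (i : Fin 4) : sig (sig i) = i := by fin_cases i <;> rfl

lemma sig_ne (i : Fin 4) : sig i ≠ i := by fin_cases i <;> decide

section

variable {p m : ℕ} (s t x : Fin m → ZMod p)

lemma c0 (j : Fin m) : corner s t x j 0 = x j := by simp [corner]
lemma c1 (j : Fin m) : corner s t x j 1 = x j + s j := by simp [corner]
lemma c2 (j : Fin m) : corner s t x j 2 = x j + t j := by simp [corner]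
lemma c3 (j : Fin m) : corner s t x j 3 = x j + t j + s j := by
  simp [corner]; ring

lemma step (j : Fin m) (i : Fin 4) :
    corner s t x j (sig i) = corner s t x j i + s j ∨
      corner s t x j (sig i) = corner s t x j i - s j := by
  fin_cases i
  · left; change corner s t x j 1 = corner s t x j 0 + s j; rw [c0, c1]
  · right; change corner s t x j 0 = corner s t x j 1 - s j; rw [c0, c1]; ring
  · left; change corner s t x j 3 = corner s t x j 2 + s j; rw [c3, c2]
  · right; change corner s t x j 2 = corner s t x j 3 - s j; rw [c3, c2]; ring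

open Classical in
/-- the involution exchanging the corners -/
noncomputable def swp (v : ZMod p) : ZMod p :=
  if h : ∃ q : Fin m × Fin 4, v = corner s t x q.1 q.2 then
    corner s t x h.choose.1 (sig h.choose.2) else v

lemma swp_corner (hinj : ∀ j i j' i', corner s t x j i = corner s t x j' i' → j = j' ∧ i = i')
    (j : Fin m) (i : Fin 4) : swp s t x (corner s t x j i) = corner s t x j (sig i) := by
  have h : ∃ q : Fin m × Fin 4, corner s t x j i = corner s t x q.1 q.2 := ⟨(j, i), rfl⟩
  unfold swp
  rw [dif_pos h]
  obtain ⟨h1, h2⟩ := hinj _ _ _ _ h.choose_spec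
  rw [← h1, ← h2]

lemma swp_other (v : ZMod p) (hv : ∀ j i, v ≠ corner s t x j i) : swp s t x v = v := by
  unfold swp
  rw [dif_neg]
  rintro ⟨q, hq⟩
  exact hv _ _ hq

end

theorem layer : LOC → LAYER := by
  intro hloc p m hp s s' t x h1 h2 h3 h4
  have hex : ∀ j, ∃ g : Fin 4 → ZMod p → ZMod p,
    (∀ i v, g i (g i v) = v) ∧
    (∀ v, g 0 v = v ↔ v = x j) ∧ (∀ v, g 1 v = v ↔ v = x j + s j) ∧
    (∀ v, g 2 v = v ↔ v = x j + t j) ∧ (∀ v, g 3 v = v ↔ v = x j + t j + s j) ∧
    (∀ i v, g i v ≠ v → g i v = v + s j ∨ g i v = v - s j ∨ g i v = v + s' j ∨ g i v = v - s' j) ∧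
    (∀ v i i', i ≠ i' → g i v ≠ g i' v) ∧
    (∀ i, g i (x j) ≠ x j + s j ∧ g i (x j + s j) ≠ x j ∧ g i (x j + t j) ≠ x j + t j + s j ∧
      g i (x j + t j + s j) ≠ x j + t j) := by
    intro j
    obtain ⟨a1, a2, a3, a4⟩ := h1 j
    obtain ⟨b1, b2, b3⟩ := h3 j
    refine hloc p (s j) (s' j) (x j) (x j + t j) a1 a2 a3 a4 ?_ ?_ ?_
    · intro h; exact b1 (by linear_combination h)
    · intro h; exact b2 (by linear_combination h)
    · intro h; exact b3 (by linear_combination -h)
  choose g g1 g2 g3 g4 g5 g6 g7 g8 using hex
  -- injectivity of the corners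
  have hinj : ∀ j i j' i', corner s t x j i = corner s t x j' i' → j = j' ∧ i = i' := by
    intro j i j' i' h
    have hj : j = j' := by
      by_contra hne
      exact h4 j j' hne i i' h
    subst hj
    refine ⟨rfl, ?_⟩
    obtain ⟨a1, a2, a3, a4⟩ := h1 j
    obtain ⟨b1, b2, b3⟩ := h3 j
    fin_cases i <;> fin_cases i'
    all_goals first
      | rfl
      | (exfalso
         simp only [Fin.zero_eta, Fin.mk_one, Fin.reduceFinMk, c0, c1, c2, c3] at h
         first
          | exact a1 (by linear_combination h)
          | exact a1 (by linear_combination -h)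
          | exact b1 (by linear_combination h)
          | exact b1 (by linear_combination -h)
          | exact b2 (by linear_combination h)
          | exact b2 (by linear_combination -h)
          | exact b3 (by linear_combination h)
          | exact b3 (by linear_combination -h))
  have hfix : ∀ j i v, g j i v = v ↔ v = corner s t x j i := by
    intro j i v
    fin_cases i
    · change g j 0 v = v ↔ v = corner s t x j 0; rw [c0]; exact g2 j v
    · change g j 1 v = v ↔ v = corner s t x j 1; rw [c1]; exact g3 j v
    · change g j 2 v = v ↔ v = corner s t x j 2; rw [c2]; exact g4 j v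
    · change g j 3 v = v ↔ v = corner s t x j 3; rw [c3]; exact g5 j v
  have hlast : ∀ j i k, g j k (corner s t x j i) ≠ corner s t x j (sig i) := by
    intro j i k
    obtain ⟨u1, u2, u3, u4⟩ := g8 j k
    fin_cases i
    · change g j k (corner s t x j 0) ≠ corner s t x j 1; rw [c0, c1]; exact u1
    · change g j k (corner s t x j 1) ≠ corner s t x j 0; rw [c0, c1]; exact u2
    · change g j k (corner s t x j 2) ≠ corner s t x j 3; rw [c2, c3]; exact u3
    · change g j k (corner s t x j 3) ≠ corner s t x j 2; rw [c2, c3]; exact u4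
  have hcase : ∀ v : ZMod p, (∃ j i, v = corner s t x j i) ∨ ∀ j i, v ≠ corner s t x j i := by
    intro v
    by_cases h : ∃ j i, v = corner s t x j i
    · exact Or.inl h
    · push Not at h; exact Or.inr h
  let F : Option (Fin m × Fin 4) → ZMod p → ZMod p := fun c =>
    match c with
    | none => swp s t x
    | some q => g q.1 q.2
  have hnone : ∀ v, F none v = v ↔ ∀ j i, v ≠ corner s t x j i := by
    intro v
    change swp s t x v = v ↔ _
    rcases hcase v with ⟨j, i, rfl⟩ | h
    · rw [swp_corner s t x hinj]
      constructor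
      · intro h
        exact absurd (hinj _ _ _ _ h).2 (sig_ne i)
      · intro h
        exact absurd rfl (h j i)
    · exact ⟨fun _ => h, fun _ => swp_other s t x v h⟩
  -- the key exclusion
  have hex2 : ∀ v j i, F none v ≠ g j i v := by
    intro v j i he
    change swp s t x v = g j i v at he
    rcases hcase v with ⟨j0, i0, rfl⟩ | h
    · rw [swp_corner s t x hinj] at he
      by_cases hj : j0 = j
      · subst hj
        exact hlast j0 i0 i he.symm
      · have hne : g j i (corner s t x j0 i0) ≠ corner s t x j0 i0 := by
          rw [← he]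
          intro h
          exact sig_ne i0 (hinj _ _ _ _ h).2
        have hm := g6 j i _ hne
        have hs : corner s t x j0 (sig i0) = corner s t x j0 i0 + s j0 ∨
            corner s t x j0 (sig i0) = corner s t x j0 i0 - s j0 ∨
            corner s t x j0 (sig i0) = corner s t x j0 i0 + s' j0 ∨
            corner s t x j0 (sig i0) = corner s t x j0 i0 - s' j0 := by
          rcases step s t x j0 i0 with h | h
          · exact Or.inl h
          · exact Or.inr (Or.inl h)
        rw [← he] at hm
        obtain ⟨e1, e2, e3, e4, e5, e6⟩ := h2 j0 j hj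
        obtain ⟨f1, f2, f3, f4, f5, f6⟩ := h2 j j0 (Ne.symm hj)
        exact dis hs hm e1 e2 e3 e4 e5 e6 f5 f6
    · rw [swp_other s t x v h] at he
      exact h j i ((hfix j i v).1 he.symm)
  refine ⟨F, ?_, hnone, fun j i v => hfix j i v, ?_, ?_⟩
  · intro c v
    match c with
    | none =>
      change swp s t x (swp s t x v) = v
      rcases hcase v with ⟨j, i, rfl⟩ | h
      · rw [swp_corner s t x hinj, swp_corner s t x hinj, sig_sig]
      · rw [swp_other s t x v h, swp_other s t x v h]
    | some q => exact g1 q.1 q.2 v
  · intro c v hcv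
    match c with
    | none =>
      rcases hcase v with ⟨j, i, rfl⟩ | h
      · refine ⟨j, ?_⟩
        change swp s t x (corner s t x j i) = _ ∨ swp s t x (corner s t x j i) = _ ∨ _
        rw [swp_corner s t x hinj]
        rcases step s t x j i with h | h
        · exact Or.inl h
        · exact Or.inr (Or.inl h)
      · exact absurd ((hnone v).2 h) hcv
    | some q => exact ⟨q.1, g6 q.1 q.2 v hcv⟩
  · intro v c c' he
    match c, c' with
    | none, none => rfl
    | none, some q => exact absurd he (hex2 v q.1 q.2)
    | some q, none => exact absurd he.symm (hex2 v q.1 q.2)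
    | some q, some q' =>
      change g q.1 q.2 v = g q'.1 q'.2 v at he
      by_cases hj : q.1 = q'.1
      · by_cases hi : q.2 = q'.2
        · rw [Prod.ext hj hi]
        · rw [hj] at he
          exact absurd he (g7 q'.1 v q.2 q'.2 hi)
      · exfalso
        by_cases hv : g q.1 q.2 v = v
        · have e1 := (hfix _ _ _).1 hv
          rw [he] at hv
          have e2 := (hfix _ _ _).1 hv
          exact h4 q.1 q'.1 hj q.2 q'.2 (e1.symm.trans e2)
        · have m1 := g6 q.1 q.2 v hv
          rw [he] at hv
          have m2 := g6 q'.1 q'.2 v hv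
          rw [he] at m1
          obtain ⟨e1, e2, e3, e4, e5, e6⟩ := h2 q.1 q'.1 hj
          obtain ⟨f1, f2, f3, f4, f5, f6⟩ := h2 q'.1 q.1 (Ne.symm hj)
          exact dis m1 m2 e1 e2 e3 e4 e5 e6 f5 f6

end Pool.Agent.W2helper51.XP
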